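import Pool.Agent.K3h3.KB.Fin

/-!
# The k(B) conjecture and the orders of the groups
-/

set_option autoImplicit false

open scoped BigOperators Classical

noncomputable section

namespace Pool.Agent.K3h50.KO

open Pool.Agent.Helper884 Pool.Agent.H254R3.IN Pool.Agent.Q288.MB Pool.Agent.K3h3.KB

/-- `k(B) ≤ C (p ^ d(B)) ^ (1 + ε)` for all Galois stable `p`-blocks `B` of all groups `P × Z` of
order `n`, where `P` is perfect and generated by subgroups isomorphic to `Q`, and `Z` is cyclic of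
order prime to `p` -/
def Bound (p : ℕ) (O : ValuationSubring ℂ) (Q : Type) [Group Q] (ε C : ℝ) (n : ℕ) : Prop :=
  ∀ (P Z : Type) [Group P] [Finite P] [Group Z] [Finite Z], Nat.card (P × Z) = n →
    commutator P = ⊤ → GenBy Q P → IsCyclic Z → ¬ p ∣ Nat.card Z →
    ∀ (B : Set (P × Z → ℂ)) (d : ℕ), IsBlock O B → (∀ σ : ℂ ≃+* ℂ, gal σ B = B) →
      HasDefect p B d → (Nat.card B : ℝ) ≤ C * ((p ^ d : ℕ) : ℝ) ^ (1 + ε)

variable {p : ℕ} [hp : Fact p.Prime] {O : ValuationSubring ℂ} {Q : Type} [Group Q]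

/-- the product of a block with the principal block of a cyclic group of order prime to `p` -/
theorem exists_prod (hpO : (p : ℂ) ∈ O.nonunits) {P : Type} [Group P] [Finite P]
    {B : Set (P → ℂ)} {d : ℕ} (hB : IsBlock O B) (hs : ∀ σ : ℂ ≃+* ℂ, gal σ B = B)
    (hd : HasDefect p B d) (y : ℕ) (hy : ¬ p ∣ y) :
    ∃ (Z : Type) (_ : Group Z) (_ : Finite Z) (B' : Set (P × Z → ℂ)), Nat.card Z = y ∧
      IsCyclic Z ∧ IsBlock O B' ∧ (∀ σ : ℂ ≃+* ℂ, gal σ B' = B') ∧ HasDefect p B' d ∧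
      Nat.card B' = Nat.card B := by
  letI := Fintype.ofFinite P
  have hy0 : y ≠ 0 := fun h => hy (h ▸ dvd_zero p)
  haveI : NeZero y := ⟨hy0⟩
  let Y : Type := Multiplicative (ZMod y)
  haveI : Finite Y := inferInstanceAs (Finite (ZMod y))
  letI := Fintype.ofFinite Y
  have hcY : Nat.card Y = y := Nat.card_zmod y
  have hY : ¬ p ∣ Nat.card Y := by rw [hcY]; exact hy
  obtain ⟨χ, hχd⟩ : ∃ χ : Y → ℂ, χ = fun g => (((1 : Y →* ℂˣ) g : ℂˣ) : ℂ) := ⟨_, rfl⟩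
  have hχ : IsIrr χ := by rw [hχd]; exact lin_irr (1 : Y →* ℂˣ)
  have hb2 : IsBlock O ({χ} : Set (Y → ℂ)) := block_singleton hpO hY hχ
  have hg2 : ∀ σ : ℂ ≃+* ℂ, gal σ ({χ} : Set (Y → ℂ)) = {χ} := by
    intro σ
    have e : (fun g => σ (χ g)) = χ := by
      funext g
      rw [hχd]
      show σ ((1 : ℂˣ) : ℂ) = ((1 : ℂˣ) : ℂ)
      rw [Units.val_one, map_one]
    ext ψ
    constructor
    · rintro ⟨φ, hφ, rfl⟩
      rw [Set.mem_singleton_iff] at hφ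
      rw [hφ, e]
      rfl
    · intro hψ
      rw [Set.mem_singleton_iff] at hψ
      exact ⟨χ, rfl, by rw [hψ, e]⟩
  have hd2 : HasDefect p ({χ} : Set (Y → ℂ)) 0 := by
    obtain ⟨d₀, hd₀⟩ := exists_defect hpO hb2
    obtain ⟨m, hm, hm2⟩ := hd₀
    have h1 : (Nat.card Y).factorization p = 0 := Nat.factorization_eq_zero_of_not_dvd hY
    rw [h1] at hm2
    have h2 : d₀ = 0 := by omega
    have h3 : HasDefect p ({χ} : Set (Y → ℂ)) d₀ := ⟨m, hm, by rw [hm2, h1]⟩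
    rwa [h2] at h3
  refine ⟨Y, inferInstance, inferInstance, tenS B {χ}, hcY, inferInstance,
    tenS_block hB hb2, fun σ => ?_, ?_, ?_⟩
  · rw [gal_tenS, hs, hg2]
  · have h := tenS_defect hB.irr hb2.irr hd hd2
    rw [add_zero] at h
    exact h
  · rw [card_tenS hB.irr hb2.irr]
    have : Nat.card ({χ} : Set (Y → ℂ)) = 1 := by
      rw [Nat.card_eq_one_iff_unique]
      exact ⟨⟨fun a b => Subtype.ext (a.2.trans b.2.symm)⟩, ⟨⟨χ, rfl⟩⟩⟩
    rw [this, mul_one]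

/-- a violation gives violations of the weak bound for all the orders `c y`, `y` prime to `p` -/
theorem violation [Finite Q] [Nontrivial Q] (hpO : (p : ℂ) ∈ O.nonunits) {G : Type} [Group G]
    [Finite G] {B : Set (G → ℂ)} {d : ℕ} (hB : IsBlock O B) (hd : HasDefect p B d)
    (hv : p ^ d < Nat.card B) : ∃ ε : ℝ, 0 < ε ∧ ∀ C : ℝ, ∃ c : ℕ, 0 < c ∧
      ∀ y : ℕ, ¬ p ∣ y → ¬ Bound p O Q ε C (c * y) := by
  obtain ⟨X, _, _, B₁, d₁, hX, hXQ, hB₁, hs, hd₁, hv₁⟩ := exists_violation hpO Q hB hd hv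
  have hD : 0 < p ^ d₁ := pow_pos hp.out.pos d₁
  obtain ⟨ε, hε, h⟩ := exists_eps hD hv₁ hD
  refine ⟨ε, hε, fun C => ?_⟩
  obtain ⟨t, ht⟩ := h C
  refine ⟨Nat.card X ^ t, pow_pos Nat.card_pos t, fun y hy hb => ?_⟩
  obtain ⟨B₂, a1, a0, a2, a3, a4, a5⟩ := exists_power hX hXQ hB₁ hs hd₁ t
  obtain ⟨Z, _, _, B₃, h1, h2, h3, h4, h5, h6⟩ := exists_prod hpO a2 a3 a4 y hy
  have hcard : Nat.card ((Fin t → X) × Z) = Nat.card X ^ t * y := by
    rw [Nat.card_prod, Nat.card_fun, Nat.card_eq_fintype_card (α := Fin t), Fintype.card_fin, h1]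
  have h7 := hb (Fin t → X) Z hcard a1 a0 h2 (by rw [h1]; exact hy) B₃ (t * d₁) h3 h4 h5
  rw [h6, a5] at h7
  have e1 : (((p ^ (t * d₁) : ℕ) : ℝ)) = (((p ^ d₁) ^ t : ℕ) : ℝ) := by
    rw [← pow_mul, mul_comm d₁ t]
  have hpos : (0 : ℝ) < (((p ^ d₁) ^ t : ℕ) : ℝ) := by exact_mod_cast pow_pos hD t
  rw [e1, Real.rpow_add hpos, Real.rpow_one, ← mul_assoc] at h7
  exact absurd h7 (not_le.2 ht)

/-- the number of the integers up to `N` without the weak bound -/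
def bad (p : ℕ) (O : ValuationSubring ℂ) (Q : Type) [Group Q] (ε C : ℝ) (N : ℕ) : ℕ :=
  {n : ℕ | 1 ≤ n ∧ n ≤ N ∧ ¬ Bound p O Q ε C n}.ncard

/-- a set which contains the multiples of `c` by the numbers prime to `p` is not of density zero -/
theorem bad_ge {ε C : ℝ} {c : ℕ} (hc : 0 < c)
    (h : ∀ y : ℕ, ¬ p ∣ y → ¬ Bound p O Q ε C (c * y)) (N : ℕ) (hN : 2 * c ≤ N) :
    N / (2 * (c * p)) ≤ bad p O Q ε C N := by
  set J := N / (2 * (c * p)) with hJ
  have hp1 := hp.out.one_lt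
  have hinj : Function.Injective fun j : ℕ => c * (1 + p * j) := by
    intro a b hab
    have h1 : 1 + p * a = 1 + p * b := Nat.eq_of_mul_eq_mul_left hc hab
    exact Nat.eq_of_mul_eq_mul_left hp.out.pos (by omega)
  have hsub : (fun j : ℕ => c * (1 + p * j)) '' (Set.Iio J) ⊆
      {n : ℕ | 1 ≤ n ∧ n ≤ N ∧ ¬ Bound p O Q ε C n} := by
    rintro _ ⟨j, hj, rfl⟩
    have hj' : j < J := hj
    refine ⟨Nat.mul_pos hc (by omega), ?_, h _ ?_⟩
    · have h1 : J * (2 * (c * p)) ≤ N := Nat.div_mul_le_self _ _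
      have h2 : 2 * (c * p * (j + 1)) ≤ N := by
        calc 2 * (c * p * (j + 1)) ≤ 2 * (c * p * J) := by gcongr; omega
          _ = J * (2 * (c * p)) := by ring
          _ ≤ N := h1
      have h3 : c * (1 + p * j) ≤ c + c * p * (j + 1) := by
        have : c * (1 + p * j) = c + c * p * j := by ring
        rw [this]
        gcongr
        omega
      show c * (1 + p * j) ≤ N
      omega
    · intro hdvd
      have h4 : p ∣ 1 := (Nat.dvd_add_left (Dvd.intro j rfl)).1 hdvd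
      have := Nat.le_of_dvd one_pos h4
      omega
  have hfin : {n : ℕ | 1 ≤ n ∧ n ≤ N ∧ ¬ Bound p O Q ε C n}.Finite :=
    (Set.finite_Iic N).subset fun n hn => hn.2.1
  calc J = (Set.Iio J).ncard := by
        rw [Set.ncard_eq_toFinset_card', Set.toFinset_Iio, Nat.card_Iio]
    _ = ((fun j : ℕ => c * (1 + p * j)) '' (Set.Iio J)).ncard :=
        (Set.ncard_image_of_injective _ hinj).symm
    _ ≤ bad p O Q ε C N := Set.ncard_le_ncard hsub hfin

/-- no violations: the bound -/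
theorem bound_of (Q : Type) [Group Q] (h : ∀ (G : Type) [Group G] [Finite G] (B : Set (G → ℂ)) (d : ℕ), IsBlock O B →
    HasDefect p B d → Nat.card B ≤ p ^ d) {ε : ℝ} (hε : 0 ≤ ε) (n : ℕ) : Bound p O Q ε 1 n := by
  intro P Z _ _ _ _ _ _ _ _ _ B d hB _ hd
  have h1 : (1 : ℝ) ≤ ((p ^ d : ℕ) : ℝ) := by exact_mod_cast Nat.one_le_pow _ _ hp.out.pos
  calc (Nat.card B : ℝ) ≤ ((p ^ d : ℕ) : ℝ) := by exact_mod_cast h (P × Z) B d hB hd
    _ = ((p ^ d : ℕ) : ℝ) ^ (1 : ℝ) := (Real.rpow_one _).symm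
    _ ≤ ((p ^ d : ℕ) : ℝ) ^ (1 + ε) := Real.rpow_le_rpow_of_exponent_le h1 (by linarith)
    _ = 1 * ((p ^ d : ℕ) : ℝ) ^ (1 + ε) := (one_mul _).symm

/-- one multiple by a number prime to `p` of each integer -/
theorem iff_multiples (hpO : (p : ℂ) ∈ O.nonunits) (Q : Type) [Group Q] [Finite Q]
    [Nontrivial Q] :
    (∀ (G : Type) [Group G] [Finite G] (B : Set (G → ℂ)) (d : ℕ), IsBlock O B →
        HasDefect p B d → Nat.card B ≤ p ^ d) ↔
      ∀ ε : ℝ, 0 < ε → ∃ C : ℝ, ∀ c : ℕ, 0 < c → ∃ y : ℕ, ¬ p ∣ y ∧ Bound p O Q ε C (c * y) := by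
  constructor
  · intro h ε hε
    refine ⟨1, fun c _ => ⟨1, ?_, bound_of Q h hε.le _⟩⟩
    intro h1
    have := Nat.le_of_dvd one_pos h1
    have := hp.out.one_lt
    omega
  · intro h G _ _ B d hB hd
    by_contra hcon
    obtain ⟨ε, hε, h1⟩ := violation (Q := Q) hpO hB hd (not_le.1 hcon)
    obtain ⟨C, hC⟩ := h ε hε
    obtain ⟨c, hc, h2⟩ := h1 C
    obtain ⟨y, hy, h3⟩ := hC c hc
    exact h2 y hy h3

/-- almost all orders -/
theorem iff_density (hpO : (p : ℂ) ∈ O.nonunits) (Q : Type) [Group Q] [Finite Q]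
    [Nontrivial Q] :
    (∀ (G : Type) [Group G] [Finite G] (B : Set (G → ℂ)) (d : ℕ), IsBlock O B →
        HasDefect p B d → Nat.card B ≤ p ^ d) ↔
      ∀ ε : ℝ, 0 < ε → ∃ C : ℝ, ∀ (δ : ℝ) (N₀ : ℕ), 0 < δ → ∃ N : ℕ, N₀ ≤ N ∧
        (bad p O Q ε C N : ℝ) ≤ δ * N := by
  constructor
  · intro h ε hε
    refine ⟨1, fun δ N₀ hδ => ⟨N₀, le_rfl, ?_⟩⟩
    have h1 : bad p O Q ε 1 N₀ = 0 := by
      unfold bad
      have : {n : ℕ | 1 ≤ n ∧ n ≤ N₀ ∧ ¬ Bound p O Q ε 1 n} = ∅ := by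
        ext n
        constructor
        · rintro ⟨_, _, h3⟩
          exact h3 (bound_of Q h hε.le _)
        · intro h3
          exact h3.elim
      rw [this, Set.ncard_empty]
    rw [h1]
    push_cast
    positivity
  · intro h G _ _ B d hB hd
    by_contra hcon
    obtain ⟨ε, hε, h1⟩ := violation (Q := Q) hpO hB hd (not_le.1 hcon)
    obtain ⟨C, hC⟩ := h ε hε
    obtain ⟨c, hc, h2⟩ := h1 C
    have hcp : 0 < 2 * (c * p) := by have := hp.out.pos; positivity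
    have hcpR : (0 : ℝ) < ((2 * (c * p) : ℕ) : ℝ) := by exact_mod_cast hcp
    obtain ⟨N, hN, h3⟩ := hC (1 / (2 * ((2 * (c * p) : ℕ) : ℝ)))
      (2 * c + 2 * (2 * (c * p)) + 1) (by positivity)
    have h4 := bad_ge hc h2 N (by omega)
    have h5 : (N : ℝ) / ((2 * (c * p) : ℕ) : ℝ) < ((N / (2 * (c * p)) : ℕ) : ℝ) + 1 := by
      rw [div_lt_iff₀ hcpR]
      have h6 : N < (N / (2 * (c * p)) + 1) * (2 * (c * p)) := by
        have := Nat.div_add_mod N (2 * (c * p))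
        have := Nat.mod_lt N hcp
        nlinarith
      exact_mod_cast h6
    have h7 : ((N / (2 * (c * p)) : ℕ) : ℝ) ≤ (bad p O Q ε C N : ℝ) := by exact_mod_cast h4
    have h8 : (2 * ((2 * (c * p) : ℕ) : ℝ)) < (N : ℝ) := by
      exact_mod_cast (show 2 * (2 * (c * p)) < N by omega)
    have h9 : 1 / (2 * ((2 * (c * p) : ℕ) : ℝ)) * (N : ℝ) =
        (N : ℝ) / ((2 * (c * p) : ℕ) : ℝ) / 2 := by
      field_simp
    rw [h9] at h3
    have h10 : 2 < (N : ℝ) / ((2 * (c * p) : ℕ) : ℝ) := by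
      rw [lt_div_iff₀ hcpR]
      exact h8
    linarith

end Pool.Agent.K3h50.KO
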